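import Pool.Agent.V5helper2.QL.Fin
import Pool.Agent.V5helper2.QL.P_FIX
import Pool.Agent.V5helper2.QL.P_CORE1
import Pool.Agent.V5helper2.QL.P_CORE2
import Pool.Agent.V5helper2.QL.P_ELIM
import Pool.Agent.V5helper2.QL.P_NZ
import Pool.Agent.V5helper2.QL.P_MEM
import Pool.Agent.V5helper2.QL.P_LIM
import Pool.Agent.V5helper2.QL.P_LAU
import Pool.Agent.V5helper2.QL.P_FUB
import Pool.Agent.V5helper2.QL.P_MINK

/-!
# All 61 numbers `M(Q_n)` are limit points of the set of Mahler measures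

This answers Q1 affirmatively: for every `n` from `1` to `61` and every `ε > 0` there is a Mahler
measure `s` of a nonzero integer polynomial with `0 < |s - M(Q_n)| < ε`.

Proof. By a monomial substitution `M(Q_n) = M(F)` for a polynomial `F = ∑_{j ≤ d} a_j(x) y^j` with
`d ≤ 4`, whose coefficients `a_0(0)` and the leading one of `a_d` are `± 1`. By Boyd and Lawton
`M(P_m) → M(F)` for `P_m = ∑_j a_j(z) z^(j m)`. So we have to show that `M(P_m) = M(F)` cannot hold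
for all large `m`. Suppose it does, and put `β = M(F)`; then `β > 1` (in coordinates in which the
coefficient `a_d` vanishes at some point of the unit circle and another one does not, or is too small,
this follows from the theorem of Fubini).

(1) The product `b` of the roots of `P_m` outside of the unit circle is `± β`. Each automorphism `σ`
of the field of algebraic numbers fixing `b` maps the multiset `S` of these roots to a set of roots
whose product has the same absolute value, which is the largest possible, so it fixes `S`.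
(2) `b` is a unit, not `± 1`, so the field `K` generated by `b` is not `ℚ`; it does not depend on `m`
(`β` is fixed). By Minkowski some prime `p` divides its discriminant, and (Dedekind) for every prime
ideal `𝔓` over `p` in the ring of all algebraic integers there are two embeddings `σ`, `τ` of `K` which
are different, but agree modulo `𝔓` on the integers of `K`. So the polynomials with the roots `σ S` and
`τ S` are congruent modulo `𝔓`. They are different, and after cancelling the common roots we get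
that `P_m` has, modulo `𝔓`, a factor `g^2`, where the degree of `g` is the number of the elements
of `σ S` not in `τ S`, which is positive.
(3) If `p` divides `m` then the derivative of `P_m` modulo `p` is `∑_j a_j' z^(j m)`, so `g` divides
`R`, where `R(x)` is the resultant of `F` and `∂F/∂x` with respect to `y`. The coefficients of `R` are
coprime for each of the 61 polynomials, so `R` is not zero modulo `p` and the degree of `g` is
bounded independently of `m`.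
(4) An element of `σ S` not in `τ S` has at most `[K : ℚ]^2 deg g` conjugates. So `P_m` has a root
outside of the unit circle of bounded degree; its Mahler measure is at most `β`. By the theorem of
Northcott there are finitely many such numbers, hence one of them is a root of `P_m` for
infinitely many `m`. But `|α| > 1`, `P_m(α) = 0` is not possible for large `m`, since not all of the
`a_j(α)` vanish.

The coordinates, the identities `U F + V ∂F/∂x = R` and the other data are checked by computation in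
the kernel (`QL/Dat.lean`).
-/

set_option autoImplicit false

namespace Pool.Agent.Results.MP_5efc61_nt.AllLimitPoints

open MeasureTheory Polynomial

noncomputable section

/-- Value of an integer polynomial in `k` variables at the torus point
`(exp (2 π i t_1), …, exp (2 π i t_k))`. -/
def value {k : ℕ} (F : MvPolynomial (Fin k) ℤ) (t : Fin k → ℝ) : ℂ :=
  MvPolynomial.eval
    (fun j : Fin k => Complex.exp (2 * (Real.pi : ℂ) * Complex.I * ((t j : ℝ) : ℂ)))
    (MvPolynomial.map (Int.castRingHom ℂ) F)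

/-- The Mahler measure of an integer polynomial in `k` variables. -/
def mahler {k : ℕ} (F : MvPolynomial (Fin k) ℤ) : ℝ :=
  Real.exp (∫ t in Set.Icc (0 : Fin k → ℝ) 1, Real.log ‖value F t‖)

/-- The set `𝓛` of the Mahler measures of the nonzero integer polynomials in any number `k ≥ 1` of
variables. -/
def allMeasures : Set ℝ :=
  {x : ℝ | ∃ k : ℕ, 1 ≤ k ∧ ∃ F : MvPolynomial (Fin k) ℤ, F ≠ 0 ∧ x = mahler F}

/-- The value of the Laurent polynomial `∑ c x^i y^j` at `(exp (2 π i t_0), exp (2 π i t_1))`; a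
Laurent polynomial in `x`, `y` is given by the list of its terms `(c, i, j)`. -/
def laurentValue (L : List (ℤ × ℤ × ℤ)) (t : Fin 2 → ℝ) : ℂ :=
  (L.map fun q => (q.1 : ℂ) *
    Complex.exp (2 * (Real.pi : ℂ) * Complex.I *
      ((q.2.1 : ℂ) * (t 0 : ℂ) + (q.2.2 : ℂ) * (t 1 : ℂ)))).sum

/-- The Mahler measure of a Laurent polynomial in two variables. -/
def laurentMahler (L : List (ℤ × ℤ × ℤ)) : ℝ :=
  Real.exp (∫ t in Set.Icc (0 : Fin 2 → ℝ) 1, Real.log ‖laurentValue L t‖)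

/-- The Laurent polynomials `Q_1, …, Q_15`; `(c, i, j)` stands for the term `c x^i y^j`. -/
def listA : List (List (ℤ × ℤ × ℤ)) :=
  [[(1, 4, 1), (-1, 3, 0), (-1, 0, 1), (-1, 0, -1), (-1, -3, 0), (1, -4, -1)],
   [(1, 1, 0), (1, 0, 1), (1, 0, 0), (1, 0, -1), (1, -1, 0)],
   [(1, 2, 1), (1, 2, 0), (1, 1, 1), (-1, 0, 0), (1, -1, -1), (1, -2, 0), (1, -2, -1)],
   [(1, 6, 1), (1, 5, 0), (1, 0, 1), (1, 0, -1), (1, -5, 0), (1, -6, -1)],
   [(1, 5, 4), (1, 1, 0), (1, 0, 1), (1, 0, -1), (1, -1, 0), (1, -5, -4)],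
   [(1, 3, 0), (1, 2, 2), (1, 0, 3), (-1, 0, -3), (-1, -2, -2), (-1, -3, 0)],
   [(1, 5, 0), (-1, 4, 1), (1, 0, 1), (1, 0, -1), (-1, -4, -1), (1, -5, 0)],
   [(1, 2, 0), (1, 1, 0), (1, 0, 1), (1, 0, -1), (1, -1, 0), (1, -2, 0)],
   [(1, 3, 0), (1, 1, 1), (1, 0, 3), (-1, 0, -3), (-1, -1, -1), (-1, -3, 0)],
   [(1, 8, 1), (-1, 7, 0), (-1, 0, 1), (-1, 0, -1), (-1, -7, 0), (1, -8, -1)],
   [(1, 6, 1), (1, 1, 0), (1, 0, 1), (1, 0, -1), (1, -1, 0), (1, -6, -1)],
   [(1, 5, 4), (1, 3, 0), (1, 0, 3), (1, 0, -3), (1, -3, 0), (1, -5, -4)],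
   [(1, 7, 0), (1, 5, 2), (1, 0, 7), (1, 0, -7), (1, -5, -2), (1, -7, 0)],
   [(1, 7, 0), (1, 6, 1), (1, 0, 1), (1, 0, -1), (1, -6, -1), (1, -7, 0)],
   [(1, 5, 0), (-1, 3, 0), (1, 0, 1), (1, 0, -1), (-1, -3, 0), (1, -5, 0)]]

/-- The Laurent polynomials `Q_16, …, Q_30`; `(c, i, j)` stands for the term `c x^i y^j`. -/
def listB : List (List (ℤ × ℤ × ℤ)) :=
  [[(1, 8, 1), (-1, 5, 0), (-1, 0, 1), (-1, 0, -1), (-1, -5, 0), (1, -8, -1)],
   [(1, 10, 0), (1, 9, 9), (1, 0, 10), (1, 0, -10), (1, -9, -9), (1, -10, 0)],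
   [(1, 3, 0), (1, 1, 1), (1, 0, 1), (1, 0, -1), (1, -1, -1), (1, -3, 0)],
   [(1, 8, 1), (-1, 3, 0), (-1, 0, 1), (-1, 0, -1), (-1, -3, 0), (1, -8, -1)],
   [(1, 5, 0), (1, 4, 4), (1, 0, 5), (-1, 0, -5), (-1, -4, -4), (-1, -5, 0)],
   [(1, 3, 1), (1, 3, 0), (1, 2, 1), (-1, 1, 0), (-1, 0, 0), (-1, -1, 0), (1, -2, -1), (1, -3, 0), (1, -3, -1)],
   [(1, 8, 1), (-1, 1, 0), (-1, 0, 1), (-1, 0, -1), (-1, -1, 0), (1, -8, -1)],
   [(1, 9, 9), (1, 8, 0), (-1, 0, 8), (-1, 0, -8), (1, -8, 0), (1, -9, -9)],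
   [(1, 6, 7), (-1, 5, 0), (-1, 0, 5), (-1, 0, -5), (-1, -5, 0), (1, -6, -7)],
   [(1, 12, 1), (1, 11, 0), (-1, 0, 1), (1, 0, -1), (-1, -11, 0), (-1, -12, -1)],
   [(1, 7, 0), (1, 5, 0), (1, 0, 1), (1, 0, -1), (1, -5, 0), (1, -7, 0)],
   [(1, 8, 7), (1, 1, 0), (1, 0, 1), (1, 0, -1), (1, -1, 0), (1, -8, -7)],
   [(1, 10, 1), (1, 7, 0), (1, 0, 1), (1, 0, -1), (1, -7, 0), (1, -10, -1)],
   [(1, 4, 7), (-1, 1, 0), (-1, 0, 1), (-1, 0, -1), (-1, -1, 0), (1, -4, -7)],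
   [(1, 5, 0), (1, 3, 3), (1, 0, 5), (-1, 0, -5), (-1, -3, -3), (-1, -5, 0)]]

/-- The Laurent polynomials `Q_31, …, Q_45`; `(c, i, j)` stands for the term `c x^i y^j`. -/
def listC : List (List (ℤ × ℤ × ℤ)) :=
  [[(1, 4, 0), (1, 1, 0), (1, 0, 1), (1, 0, -1), (1, -1, 0), (1, -4, 0)],
   [(1, 5, 0), (-1, 3, 2), (1, 0, 5), (1, 0, -5), (-1, -3, -2), (1, -5, 0)],
   [(1, 2, 1), (1, 1, 0), (1, 0, 3), (1, 0, -3), (1, -1, 0), (1, -2, -1)],
   [(1, 14, 1), (1, 13, 0), (-1, 0, 1), (1, 0, -1), (-1, -13, 0), (-1, -14, -1)],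
   [(1, 11, 11), (1, 10, 0), (1, 0, 10), (1, 0, -10), (1, -10, 0), (1, -11, -11)],
   [(1, 9, 0), (-1, 5, 0), (1, 0, 1), (1, 0, -1), (-1, -5, 0), (1, -9, 0)],
   [(1, 8, 9), (1, 7, 0), (1, 0, 7), (1, 0, -7), (1, -7, 0), (1, -8, -9)],
   [(1, 5, 0), (1, 2, 2), (1, 0, 5), (-1, 0, -5), (-1, -2, -2), (-1, -5, 0)],
   [(1, 2, 2), (1, 2, 1), (1, 1, 2), (1, 1, 1), (-1, 1, -1), (-1, -1, 1), (1, -1, -1), (1, -1, -2), (1, -2, -1), (1, -2, -2)],
   [(1, 10, 1), (1, 3, 0), (1, 0, 1), (1, 0, -1), (1, -3, 0), (1, -10, -1)],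
   [(1, 7, 2), (-1, 3, 0), (-1, 0, 1), (-1, 0, -1), (-1, -3, 0), (1, -7, -2)],
   [(1, 9, 2), (-1, 5, 0), (-1, 0, 1), (-1, 0, -1), (-1, -5, 0), (1, -9, -2)],
   [(1, 8, 7), (1, 3, 0), (1, 0, 3), (1, 0, -3), (1, -3, 0), (1, -8, -7)],
   [(1, 5, 0), (1, 1, 1), (1, 0, 5), (-1, 0, -5), (-1, -1, -1), (-1, -5, 0)],
   [(1, 10, 1), (1, 1, 0), (1, 0, 1), (1, 0, -1), (1, -1, 0), (1, -10, -1)]]

/-- The Laurent polynomials `Q_46, …, Q_61`; `(c, i, j)` stands for the term `c x^i y^j`. -/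
def listD : List (List (ℤ × ℤ × ℤ)) :=
  [[(1, 5, 0), (-1, 2, 1), (1, 0, 1), (1, 0, -1), (-1, -2, -1), (1, -5, 0)],
   [(1, 7, 0), (1, 6, 6), (1, 0, 7), (-1, 0, -7), (-1, -6, -6), (-1, -7, 0)],
   [(1, 7, 0), (1, 5, 4), (1, 0, 7), (1, 0, -7), (1, -5, -4), (1, -7, 0)],
   [(1, 16, 1), (1, 15, 0), (-1, 0, 1), (1, 0, -1), (-1, -15, 0), (-1, -16, -1)],
   [(1, 11, 0), (1, 4, 7), (1, 0, 11), (1, 0, -11), (1, -4, -7), (1, -11, 0)],
   [(1, 9, 0), (-1, 5, 2), (1, 0, 9), (1, 0, -9), (-1, -5, -2), (1, -9, 0)],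
   [(1, 13, 0), (1, 12, 1), (-1, 0, 1), (1, 0, -1), (-1, -12, -1), (-1, -13, 0)],
   [(1, 9, 9), (1, 2, 0), (1, 0, 2), (1, 0, -2), (1, -2, 0), (1, -9, -9)],
   [(1, 3, 1), (1, 3, 0), (1, 2, 1), (1, 2, 0), (-1, 0, 0), (1, -2, 0), (1, -2, -1), (1, -3, 0), (1, -3, -1)],
   [(1, 8, 1), (-1, 3, 0), (-1, 0, 3), (-1, 0, -3), (-1, -3, 0), (1, -8, -1)],
   [(1, 12, 1), (-1, 7, 0), (-1, 0, 1), (-1, 0, -1), (-1, -7, 0), (1, -12, -1)],
   [(1, 10, 11), (-1, 9, 0), (-1, 0, 9), (-1, 0, -9), (-1, -9, 0), (1, -10, -11)],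
   [(1, 14, 1), (1, 11, 0), (-1, 0, 1), (1, 0, -1), (-1, -11, 0), (-1, -14, -1)],
   [(1, 9, 0), (-1, 4, 7), (1, 0, 9), (1, 0, -9), (-1, -4, -7), (1, -9, 0)],
   [(1, 6, 11), (-1, 1, 0), (-1, 0, 1), (-1, 0, -1), (-1, -1, 0), (1, -6, -11)],
   [(1, 5, 0), (1, 4, 0), (1, 0, 1), (1, 0, -1), (1, -4, 0), (1, -5, 0)]]

/-- The list of the 61 Laurent polynomials. -/
def list61 : List (List (ℤ × ℤ × ℤ)) := listA ++ (listB ++ (listC ++ listD))

/-- The Laurent polynomial `Q_n`, `1 ≤ n ≤ 61`. -/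
def Q (n : ℕ) : List (ℤ × ℤ × ℤ) := list61.getD (n - 1) []

/-- A real number `x` is a limit point of `T` if there are elements `s` of `T` with
`0 < |s - x| < ε`, for all `ε > 0`. -/
def IsLimitPoint (T : Set ℝ) (x : ℝ) : Prop := ∀ ε > 0, ∃ s ∈ T, 0 < |s - x| ∧ |s - x| < ε

/-- **For every `n` from `1` to `61` the number `M(Q_n)` is a limit point of the set of all Mahler
measures of integer polynomials.** -/
theorem result : ∀ n : ℕ, 1 ≤ n → n ≤ 61 → IsLimitPoint allMeasures (laurentMahler (Q n)) := by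
  intro n h1 h2 ε hε
  have hchk := V5helper2.QL.all_checked (n - 1) (by omega)
  obtain ⟨P, hP, h3, h4⟩ := V5helper2.QL.limit_point V5helper2.QL.mink V5helper2.QL.fix
    V5helper2.QL.core1 V5helper2.QL.core2 V5helper2.QL.elim V5helper2.QL.nz V5helper2.QL.fub
    V5helper2.QL.lau V5helper2.QL.lim hchk ε hε
  refine ⟨H261R2.CM.m1 P, ?_, h3, h4⟩
  refine ⟨1, le_rfl, Polynomial.aeval (MvPolynomial.X 0 : MvPolynomial (Fin 1) ℤ) P, ?_, ?_⟩
  · intro h0
    apply hP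
    have h5 := congrArg (MvPolynomial.aeval (fun _ : Fin 1 => (X : ℤ[X]))) h0
    rw [map_zero, ← Polynomial.aeval_algHom_apply, MvPolynomial.aeval_X] at h5
    simpa using h5
  · exact (V5helper2.QL.mem P hP).symm

end

end Pool.Agent.Results.MP_5efc61_nt.AllLimitPoints
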